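import Pool.Agent.FRE.Stmts

/-!
Squad FRE, row CSE: small doubling implies large energy.
-/

set_option autoImplicit false

namespace Pool.Agent.FRE.H82

open Pointwise

/-- row CSE -/
theorem cse : CseStmt := by
  classical
  intro P K h
  have h1 := Finset.le_card_add_mul_addEnergy P P
  have h2 : (P + P).card = sms P := by
    unfold sms
    rfl
  have h3 : Finset.addEnergy P P = eng P := by
    rw [Finset.addEnergy_eq_card_filter]
    unfold eng
    congr 1
  rw [h2, h3] at h1
  have h4 : ((P.card : ℝ) ^ 2) * (P.card : ℝ) ^ 2 ≤ sms P * eng P := by exact_mod_cast h1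
  rcases Nat.eq_zero_or_pos P.card with h0 | h0
  · rw [h0]
    have h5 : P = ∅ := Finset.card_eq_zero.1 h0
    have h6 : eng P = 0 := by
      rw [h5]
      unfold eng
      simp
    rw [h6]
    simp
  · have h5 : (0 : ℝ) < P.card := Nat.cast_pos.2 h0
    have h6 : ((P.card : ℝ) ^ 3) * P.card ≤ (K * eng P) * P.card := by
      calc ((P.card : ℝ) ^ 3) * P.card = ((P.card : ℝ) ^ 2) * (P.card : ℝ) ^ 2 := by ring
        _ ≤ (sms P : ℝ) * (eng P : ℝ) := h4
        _ ≤ (K * P.card) * eng P := mul_le_mul_of_nonneg_right h (Nat.cast_nonneg _)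
        _ = (K * eng P) * P.card := by ring
    exact le_of_mul_le_mul_right h6 h5

end Pool.Agent.FRE.H82
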